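import Mathlib
import Pool.Agent.P.MP_c09308_co.Final

namespace Pool.Agent.Results.MP_c09308_co.Asymptotic

/-- An `n`-uniform clique that is not 2-colourable (more generally, has no cover with fewer than
`n` points) has at most `(1 + o(1/n)) * C(2n-2, n-1) / 2` vertices. -/
theorem result : ∀ ε : ℝ, 0 < ε → ∃ N : ℕ, ∀ n : ℕ, N ≤ n → ∀ F : Finset (Finset ℕ),
    (∀ e ∈ F, e.card = n) → (∀ e ∈ F, ∀ f ∈ F, (e ∩ f).Nonempty) →
    ((¬ ∃ c : ℕ → Fin 2, ∀ e ∈ F, ∃ x ∈ e, ∃ y ∈ e, c x ≠ c y) ∨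
      (∀ T : Finset ℕ, T.card < n → ∃ e ∈ F, Disjoint e T)) →
    ((F.biUnion id).card : ℝ) ≤ (1 + ε / n) * (((2 * n - 2).choose (n - 1) : ℝ) / 2) := by
  intro ε hε
  obtain ⟨N, hN⟩ := Pool.Agent.P.MP_c09308_co.asymptotic_bound hε
  refine ⟨N, fun n hn F h1 h2 h3 => hN n hn F h1 h2 ?_⟩
  rcases h3 with h3 | h3
  · exact Pool.Agent.P.MP_c09308_co.cover_of_not_colourable h1 h3
  · exact h3

end Pool.Agent.Results.MP_c09308_co.Asymptotic
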