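import Mathlib
import Pool.Agent.P.MP_c09308_co.TzFinal

namespace Pool.Agent.Results.MP_c09308_co.Singletons

/-- An intersecting family of sets of size at most `r` has at most
`(1 + o(1)) * C(2r-2, r-1) / 2` points that are the intersection of two members. -/
theorem result : ∀ ε : ℝ, 0 < ε → ∃ N : ℕ, ∀ r : ℕ, N ≤ r → ∀ F : Set (Finset ℕ),
    (∀ e ∈ F, e.card ≤ r) → (∀ e ∈ F, ∀ f ∈ F, (e ∩ f).Nonempty) →
    ∀ X : Finset ℕ, (∀ x ∈ X, ∃ e ∈ F, ∃ f ∈ F, e ∩ f = {x}) →
      (X.card : ℝ) ≤ (1 + ε) * (((2 * r - 2).choose (r - 1) : ℝ) / 2) := by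
  intro ε hε
  obtain ⟨N, hN⟩ := Pool.Agent.P.MP_c09308_co.tz_singletons hε
  refine ⟨N, fun r hr F h1 h2 X hX => ?_⟩
  choose! A hA B hB hx using hX
  have key : ∀ S ∈ X.image A ∪ X.image B, S ∈ F := by
    intro S hS
    rcases Finset.mem_union.1 hS with h | h <;> obtain ⟨x, hx, rfl⟩ := Finset.mem_image.1 h
    · exact hA x hx
    · exact hB x hx
  exact hN r hr (X.image A ∪ X.image B) (fun S hS => h1 S (key S hS))
    (fun S hS T hT => h2 S (key S hS) T (key T hT)) X fun x h =>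
      ⟨A x, Finset.mem_union_left _ (Finset.mem_image_of_mem _ h),
        B x, Finset.mem_union_right _ (Finset.mem_image_of_mem _ h), hx x h⟩

end Pool.Agent.Results.MP_c09308_co.Singletons
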